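import Pool.Agent.H.MP_4f5d8b_al.C

namespace Pool.Agent.H.MP_8ea9e7_al

open FirstOrder FirstOrder.Language Pool.Agent.H.MP_4f5d8b_al

def evg {X α : Type} (P : Lp X) (v : α → X) (t : Lg.Term α) : X :=
  @FirstOrder.Language.Term.realize Lg X P.str α v t

theorem evg_func {X α : Type} (P : Lp X) (v : α → X) {n : ℕ} (f : Lg.Functions n)
    (ts : Fin n → Lg.Term α) :
    evg P v (.func f ts) = P.op n (Fin.val f) fun i => evg P v (ts i) := rfl

theorem op_hom {X Y : Type} {P : Lp X} {P' : Lp Y} {φ : X → Y} (h : IsHom P P' φ) (n j : ℕ)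
    (v : Fin n → X) : φ (P.op n j v) = P'.op n j fun i => φ (v i) := by
  simp only [Lp.op]
  split_ifs
  exacts [h.mul _ _, h.ldiv _ _, h.rdiv _ _, h.e]

theorem evg_hom {X Y α : Type} {P : Lp X} {P' : Lp Y} {φ : X → Y} (h : IsHom P P' φ)
    (v : α → X) (t : Lg.Term α) : φ (evg P v t) = evg P' (fun i => φ (v i)) t := by
  induction t with
  | var i => rfl
  | func f ts ih => simp only [evg_func, op_hom h, ih]

theorem ab_sub {C α : Type} [AddCommGroup C] (v v' : α → C) (t : Lg.Term α) :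
    evg (ab C) v t - evg (ab C) v' t = evg (ab C) (fun i => v i - v' i) t := by
  induction t with
  | var i => rfl
  | func f ts ih =>
    simp only [evg_func, ← ih]
    generalize Fin.val f = j
    simp only [Lp.op]
    split_ifs <;> simp only [ab] <;> abel

theorem ext_sub {X C α : Type} [AddCommGroup C] (P : Lp X) (g : X → X → C) (v v' : α → X × C)
    (h : ∀ i, (v i).1 = (v' i).1) (t : Lg.Term α) :
    (evg (ext P g) v t).2 - (evg (ext P g) v' t).2 =
      evg (ab C) (fun i => (v i).2 - (v' i).2) t := by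
  have h1 : ∀ t, (evg (ext P g) v t).1 = (evg (ext P g) v' t).1 := fun t => by
    simp only [evg_hom (ext_fst P g), h]
  induction t with
  | var i => rfl
  | func f ts ih =>
    simp only [evg_func, ← ih]
    generalize Fin.val f = j
    simp only [Lp.op]
    split_ifs
    · change _ + _ + g _ _ - (_ + _ + g _ _) = (_ - _) + (_ - _)
      rw [h1, h1]; abel
    · change _ - _ - g _ (P.ldiv _ _) - (_ - _ - g _ (P.ldiv _ _)) = (_ - _) - (_ - _)
      rw [h1, h1]; abel
    · change _ - _ - g (P.rdiv _ _) _ - (_ - _ - g (P.rdiv _ _) _) = (_ - _) - (_ - _)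
      rw [h1, h1]; abel
    · simp [ext, ab]

theorem tc_ab {C α β : Type} [AddCommGroup C] (t : Lg.Term (α ⊕ β)) (a b : α → C) (c d : β → C)
    (h : evg (ab C) (Sum.elim a c) t = evg (ab C) (Sum.elim a d) t) :
    evg (ab C) (Sum.elim b c) t = evg (ab C) (Sum.elim b d) t := by
  rw [← sub_eq_zero, ab_sub] at h ⊢
  rw [← h]
  congr 1
  funext i
  rcases i with i | i <;> simp

theorem tc_ext {X C α β : Type} [AddCommGroup C] (P : Lp X) (g : X → X → C)
    (t : Lg.Term (α ⊕ β)) (a b : α → X × C) (c d : β → X × C) (hcd : ∀ j, (c j).1 = (d j).1)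
    (h : evg (ext P g) (Sum.elim a c) t = evg (ext P g) (Sum.elim a d) t) :
    evg (ext P g) (Sum.elim b c) t = evg (ext P g) (Sum.elim b d) t := by
  have h1 : ∀ (b : α → X × C) i, (Sum.elim b c i).1 = (Sum.elim b d i).1 := by
    rintro b (i | i)
    exacts [rfl, hcd i]
  refine Prod.ext (by simp only [evg_hom (ext_fst P g), h1]) ?_
  have h2 := congrArg Prod.snd h
  rw [← sub_eq_zero, ext_sub _ _ _ _ (h1 _)] at h2 ⊢
  rw [← h2]
  congr 1
  funext i
  rcases i with i | i <;> simp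

theorem elim_comp {X Y α β : Type} (φ : X → Y) (a : α → X) (c : β → X) :
    (fun i => φ (Sum.elim a c i)) = Sum.elim (fun i => φ (a i)) fun i => φ (c i) := by
  funext i; rcases i with i | i <;> rfl

def th : ℕ → LT → LT → Prop
  | 0 => fun _ _ => True
  | 1 => fun x y => x.1.1 = y.1.1
  | 2 => fun x y => x.1 = y.1
  | _ + 3 => fun x y => x = y

theorem hom1 : IsHom LL (ab (ZMod 3)) fun x => x.1.1 :=
  ⟨fun _ _ => rfl, fun _ _ => rfl, fun _ _ => rfl, rfl⟩

theorem hom2 : IsHom LL Q2 Prod.fst := ext_fst _ _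

theorem th_equiv (i : ℕ) : Equivalence (th i) :=
  match i with
  | 0 => ⟨fun _ => trivial, fun _ => trivial, fun _ _ => trivial⟩
  | 1 => ⟨fun _ => rfl, Eq.symm, Eq.trans⟩
  | 2 => ⟨fun _ => rfl, Eq.symm, Eq.trans⟩
  | _ + 3 => ⟨fun _ => rfl, Eq.symm, Eq.trans⟩

theorem th_op (i n j : ℕ) (x y : Fin n → LT) (h : ∀ k, th i (x k) (y k)) :
    th i (LL.op n j x) (LL.op n j y) :=
  match i, h with
  | 0, _ => trivial
  | 1, h => (op_hom hom1 n j x).trans
      ((congrArg _ (funext h)).trans (op_hom hom1 n j y).symm)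
  | 2, h => (op_hom hom2 n j x).trans
      ((congrArg _ (funext h)).trans (op_hom hom2 n j y).symm)
  | _ + 3, h => congrArg _ (funext h)

theorem th_tc (i : ℕ) (hi : i < 3) {α β : Type} (t : Lg.Term (α ⊕ β)) (a b : α → LT)
    (c d : β → LT) (hcd : ∀ j, th i (c j) (d j))
    (h : th (i + 1) (evg LL (Sum.elim a c) t) (evg LL (Sum.elim a d) t)) :
    th (i + 1) (evg LL (Sum.elim b c) t) (evg LL (Sum.elim b d) t) := by
  interval_cases i
  · change (evg LL _ t).1.1 = (evg LL _ t).1.1 at h ⊢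
    rw [evg_hom hom1, evg_hom hom1, elim_comp fun x : LT => x.1.1,
      elim_comp fun x : LT => x.1.1] at h ⊢
    exact tc_ab t _ _ _ _ h
  · change Prod.fst _ = Prod.fst _ at h ⊢
    rw [evg_hom hom2, evg_hom hom2, elim_comp, elim_comp] at h ⊢
    exact tc_ext _ _ t _ _ _ _ hcd h
  · exact tc_ext _ _ t _ _ _ _ hcd h

theorem cong_term {B α : Type} [Lg.Structure B] {θ : B → B → Prop}
    (hθ : ∀ (n : ℕ) (f : Lg.Functions n) (x y : Fin n → B),
      (∀ i, θ (x i) (y i)) → θ (Structure.funMap f x) (Structure.funMap f y))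
    {v v' : α → B} (h : ∀ i, θ (v i) (v' i)) (t : Lg.Term α) :
    θ (t.realize v) (t.realize v') := by
  induction t with
  | var i => exact h i
  | func f ts ih => exact hθ _ f _ _ ih

def tb {α : Type} (j : Fin 3) (s t : Lg.Term α) : Lg.Term α := .func (l := 2) j ![s, t]

def mal {α : Type} (x y z : α) : Lg.Term α := tb 0 (.var x) (tb 1 (.var y) (.var z))

theorem mal_congr {B α β : Type} [Lg.Structure B] (v : α → B) (w : β → B) {x y z : α}
    {x' y' z' : β} (hx : v x = w x') (hy : v y = w y') (hz : v z = w z') :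
    (mal x y z).realize v = (mal x' y' z').realize w := by
  simp only [mal, tb, Term.realize]
  congr 1
  funext i
  fin_cases i
  · exact hx
  · simp only [Fin.mk_one, Matrix.cons_val_one, Matrix.cons_val_zero, Term.realize]
    congr 1
    funext i
    fin_cases i
    exacts [hy, hz]

theorem LL_self : ∀ x : LT, LL.ldiv x x = LL.e := fun x =>
  (congrArg (LL.ldiv x) (LL_unit x).2.symm).trans (LL_loop x LL.e).2.1

theorem perm {B : Type} [Lg.Structure B]
    (hB : ∀ (n : ℕ) (t s : Lg.Term (Fin n)), (∀ v, evg LL v t = evg LL v s) →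
      ∀ w : Fin n → B, t.realize w = s.realize w)
    {α β : B → B → Prop} (ha : Equivalence α) (hb : Equivalence β)
    (hα : ∀ (n : ℕ) (f : Lg.Functions n) (x y : Fin n → B),
      (∀ i, α (x i) (y i)) → α (Structure.funMap f x) (Structure.funMap f y))
    (hβ : ∀ (n : ℕ) (f : Lg.Functions n) (x y : Fin n → B),
      (∀ i, β (x i) (y i)) → β (Structure.funMap f x) (Structure.funMap f y))
    {x y : B} (h : ∃ z, α x z ∧ β z y) : ∃ z, β x z ∧ α z y := by
  obtain ⟨z, h1, h2⟩ := h
  have e1 := hB 2 (mal 0 1 1) (.var 0) (fun v => by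
    change LL.mul (v 0) (LL.ldiv (v 1) (v 1)) = v 0
    rw [LL_self, (LL_unit _).2]) ![x, y]
  have e2 := hB 2 (mal 0 0 1) (.var 1) (fun v => (LL_loop (v 0) (v 1)).1) ![z, y]
  refine ⟨(mal (0 : Fin 3) 1 2).realize ![x, z, y], ?_, ?_⟩
  · have := cong_term hβ (v := ![x, y, y]) (v' := ![x, z, y]) (fun i => by
      fin_cases i
      exacts [hb.refl _, hb.symm h2, hb.refl _]) (mal (0 : Fin 3) 1 2)
    rwa [mal_congr ![x, y, y] ![x, y] (x' := 0) (y' := 1) (z' := 1) rfl rfl rfl, e1] at this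
  · have := cong_term hα (v := ![x, z, y]) (v' := ![z, z, y]) (fun i => by
      fin_cases i
      exacts [h1, ha.refl _, ha.refl _]) (mal (0 : Fin 3) 1 2)
    rwa [mal_congr ![z, z, y] ![z, y] (x' := 0) (y' := 0) (z' := 1) rfl rfl rfl, e2] at this

end Pool.Agent.H.MP_8ea9e7_al
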