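import Pool.Agent.H.MP_8ea9e7_al.A

namespace Pool.Agent.H.MP_8ea9e7_al

open FirstOrder FirstOrder.Language Pool.Agent.H.MP_4f5d8b_al

def KT (k : ℕ) : Type := {x : MT k × ZMod 3 // x.1.2 0 = 0}

def KS (k : ℕ) : Lp (KT k) where
  mul x y := ⟨(KK k).mul x.1 y.1, by simp [KK, MM, ext, ab, ff, x.2, y.2]⟩
  ldiv x y := ⟨(KK k).ldiv x.1 y.1, by simp [KK, MM, ext, ab, ff, x.2, y.2]⟩
  rdiv x y := ⟨(KK k).rdiv x.1 y.1, by simp [KK, MM, ext, ab, ff, x.2, y.2]⟩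
  e := ⟨(KK k).e, rfl⟩

theorem val_hom (k : ℕ) : IsHom (KS k) (KK k) Subtype.val :=
  ⟨fun _ _ => rfl, fun _ _ => rfl, fun _ _ => rfl, rfl⟩

theorem not_id_S (k : ℕ) : ∃ w, (KS (k + 2)).ev w (tm (UU (k + 1)) (.var 0)) ≠
    (KS (k + 2)).ev w (tm (.var 0) (UU (k + 1))) := by
  let w : ℕ → MT (k + 2) × ZMod 3 := fun i =>
    ((if h : i < k + 2 then Pi.evalAddMonoidHom (fun _ => ZMod 3) ⟨i, h⟩ else 0, 0), 0)
  refine ⟨fun i => ⟨w i, rfl⟩, fun h => ?_⟩
  have h := (ev_hom (val_hom _) _ _).symm.trans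
    ((congrArg Subtype.val h).trans (ev_hom (val_hom _) _ _))
  change (KK (k + 2)).ev w _ = (KK (k + 2)).ev w _ at h
  have hU : ∀ a, ph a ((KK (k + 2)).ev w (UU (k + 1))).1 =
      (0, ∑ j : Fin (k + 1), be (a j.succ)) := fun a => by
    rw [KK, ev_hom (ext_fst _ _), ev_hom (ph_hom a), UU_Q, Finset.sum_range]
    congr 1
    refine Finset.sum_congr rfl fun j _ => ?_
    have : (j : ℕ) + 1 < k + 2 := by omega
    simp only [ph, w, dif_pos this]
    rfl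
  have h0 : ∀ a, ph a (w 0).1 = (a 0, 0) := fun a => by
    simp [ph, w]
  have h1 := congrArg Prod.snd h
  rw [ev_tm, ev_tm, ev_var] at h1
  change _ + _ + ∑ a, 1 * GG (ph a _) (ph a _) = _ + _ + ∑ a, 1 * GG (ph a _) (ph a _) at h1
  simp only [hU, h0, GG, chi_sum, one_mul, sub_mul, Finset.sum_sub_distrib] at h1
  have e1 : ∑ a : Fin (k + 2) → ZMod 3, (∏ j : Fin (k + 1), chi (be (a j.succ))) * io (a 0) =
      (-1) ^ (k + 1) := by
    have := Finset.prod_univ_sum (fun _ : Fin (k + 2) => (Finset.univ : Finset (ZMod 3)))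
      (fun i x => (Fin.cons (io x) (fun _ => chi (be x)) : Fin (k + 2) → ZMod 3) i)
    simp only [Fintype.piFinset_univ, Fin.prod_univ_succ (n := k + 1), Fin.cons_zero,
      Fin.cons_succ] at this
    have a1 : ∑ x : ZMod 3, io x = 1 := by decide
    have a2 : ∑ x : ZMod 3, chi (be x) = -1 := by decide
    rw [a1, a2] at this
    simpa [mul_comm] using this.symm
  have e2 : ∑ a : Fin (k + 2) → ZMod 3, io (a 0) = 0 :=
    sum_inv (fun a => io (a 0)) (κ := Pi.single 1 1) (by simp) fun a => by simp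
  have e3 : io 0 = 0 := rfl
  have e4 : chi 0 = 1 := rfl
  rw [e1, e2] at h1
  simp only [e3, e4, mul_zero, Finset.sum_const_zero, sub_zero, add_zero] at h1
  rw [add_comm (w 0).2, add_eq_left] at h1
  have : Fact (Nat.Prime 3) := ⟨Nat.prime_three⟩
  simp at h1

def asc {X : Type} (P : Lp X) (z p q : X) : X :=
  P.ldiv (P.mul z (P.mul p q)) (P.mul (P.mul z p) q)

def uf {X : Type} (P : Lp X) (z : X) : X := P.mul (P.mul z z) (P.mul (P.mul z z) (P.mul z z))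

def TT {X : Type} (P : Lp X) (z p q : X) : Fin 4 → X :=
  ![z, P.mul z z, asc P z p q, asc P (uf P z) p q]

theorem asc_K {k : ℕ} (z : MT k × ZMod 3) (hz : z.1.1 = 0) (β : (Fin k → ZMod 3) → ZMod 2)
    (α : (Fin k → ZMod 3) →+ ZMod 3) : asc (KK k) z ((0, β), 0) ((α, 0), 0) =
      (0, ∑ a, (chi (z.1.2 a) - 1) * (chi (β a) - 1) * io (α a)) := by
  obtain ⟨⟨γ, δ⟩, c⟩ := z
  obtain rfl : γ = 0 := hz
  have f0 : ∀ a, ff 0 a = 0 := by decide
  have e3 : io 0 = 0 := rfl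
  have hc : ∀ x y, chi (x + y) = chi x * chi y := by decide
  refine Prod.ext (Prod.ext ?_ (funext fun a => ?_)) ?_
  · simp [asc, KK, MM, ext, ab]
  · simp [asc, KK, MM, ext, ab, ff]
  · simp only [asc, KK, MM, ext, ab, GG, ph, f0, e3, hc, zero_add, add_zero, sub_self,
      AddMonoidHom.zero_apply, Pi.add_apply, mul_zero, one_mul,
      Finset.sum_const_zero, sub_zero]
    rw [add_assoc, add_sub_add_left_eq_sub, ← Finset.sum_add_distrib, ← Finset.sum_sub_distrib]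
    exact Finset.sum_congr rfl fun a _ => by ring

theorem uf_K {k : ℕ} (z : MT k × ZMod 3) : (uf (KK k) z).1 = (0, fun a => be (z.1.1 a)) := by
  have h1 : ∀ x, uf QQ x = (0, be x.1) := by decide
  have h2 : ∀ a, ph a (uf (KK k) z).1 = (0, be (z.1.1 a)) := fun a => h1 (ph a z.1)
  exact Prod.ext (AddMonoidHom.ext fun a => congrArg Prod.fst (h2 a))
    (funext fun a => congrArg Prod.snd (h2 a))

theorem asc_ex {k : ℕ} {z : MT k × ZMod 3} (hz : z.1.1 = 0) {a : Fin k → ZMod 3} (ha : a ≠ 0)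
    (h : z.1.2 a ≠ 0) : ∃ p q : KT k, asc (KK k) z p.1 q.1 = (0, 1) ∧
      ∀ y : MT k × ZMod 3, y.1 = 0 → asc (KK k) y p.1 q.1 = (0, 0) := by
  obtain ⟨j, hj⟩ := Function.ne_iff.1 ha
  refine ⟨⟨((0, Pi.single a 1), 0), Pi.single_eq_of_ne ha.symm _⟩,
    ⟨(((AddMonoidHom.mulLeft (a j)).comp (Pi.evalAddMonoidHom (fun _ => ZMod 3) j), 0), 0), rfl⟩,
    ?_, fun y hy => ?_⟩
  · rw [asc_K z hz, Finset.sum_eq_single a]
    · have : ∀ (x : ZMod 2) (y : ZMod 3), x ≠ 0 → y ≠ 0 →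
          (chi x - 1) * (chi 1 - 1) * io (y * y) = 1 := by decide
      rw [Pi.single_eq_same]
      exact congrArg _ (this _ _ h hj)
    · intro b _ hb
      rw [Pi.single_eq_of_ne hb]
      simp [chi]
    · simp
  · rw [asc_K y (by rw [hy]; rfl), hy]
    simp [chi]

def c0 (k : ℕ) : KT k := ⟨(0, 1), rfl⟩

theorem KK_loop (k : ℕ) : IsLoop (KK k) := ext_loop (ext_loop (ab_loop _) _) _

theorem KK_unit {k : ℕ} (x : MT k × ZMod 3) : (KK k).mul x (0, 0) = x := by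
  have e3 : io 0 = 0 := rfl
  refine Prod.ext (Prod.ext ?_ (funext fun a => ?_)) ?_ <;> simp [KK, MM, ext, ab, ff, GG, ph, e3]

theorem si_S {k : ℕ} {x y : KT k} (h : x ≠ y) : ∃ j, ∃ p q,
    TT (KS k) ((KS k).ldiv x y) p q j = c0 k ∧ TT (KS k) ((KS k).ldiv x x) p q j = (KS k).e := by
  have e0 : (KS k).ldiv x x = (KS k).e := Subtype.ext
    ((congrArg ((KK k).ldiv x.1) (KK_unit x.1).symm).trans (KK_loop k x.1 (0, 0)).2.1)
  have e1 : ((KS k).ldiv x y).1 ≠ (0, 0) := fun e => h (Subtype.ext (by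
    have := (KK_loop k x.1 y.1).1
    rw [show (KK k).ldiv x.1 y.1 = (0, 0) from e, KK_unit] at this
    exact this))
  rw [e0]
  generalize (KS k).ldiv x y = z at e1
  by_cases h1 : z.1.1.1 = 0
  · by_cases h2 : z.1.1.2 = 0
    · have h3 : z.1.1 = 0 := Prod.ext h1 h2
      have h4 : ∀ c : ZMod 3, c ≠ 0 → c = 1 ∨ c + c = 1 := by decide
      rcases h4 z.1.2 (fun e => e1 (Prod.ext h3 e)) with h5 | h5
      · exact ⟨0, z, z, Subtype.ext (Prod.ext h3 h5), rfl⟩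
      · refine ⟨1, z, z, Subtype.ext ?_, Subtype.ext (KK_unit _)⟩
        have e3 : io 0 = 0 := rfl
        change (KK k).mul z.1 z.1 = (0, 1)
        refine Prod.ext (Prod.ext ?_ (funext fun a => ?_)) ?_ <;>
          simp [KK, MM, ext, ab, ff, GG, ph, e3, h3, h5]
    · obtain ⟨a, ha⟩ := Function.ne_iff.1 h2
      obtain ⟨p, q, h5, h6⟩ := asc_ex h1 (fun e => ha (by rw [e]; exact z.2)) ha
      exact ⟨2, p, q, Subtype.ext h5, Subtype.ext (h6 _ rfl)⟩
  · obtain ⟨a, ha⟩ := DFunLike.ne_iff.1 h1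
    obtain ⟨p, q, h5, h6⟩ := asc_ex (z := uf (KK k) z.1) (a := a) (by rw [uf_K])
      (fun e => ha (by rw [e, map_zero]; rfl)) (by
        rw [uf_K]
        have : z.1.1.1 a ≠ 0 := ha
        simp [be, this])
    refine ⟨3, p, q, Subtype.ext h5, Subtype.ext (h6 (uf (KK k) (KK k).e) ?_)⟩
    rw [uf_K]
    rfl

end Pool.Agent.H.MP_8ea9e7_al
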