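import Pool.Agent.H.MP_8ea9e7_al.B

namespace Pool.Agent.H.MP_8ea9e7_al

open FirstOrder FirstOrder.Language Pool.Agent.H.MP_4f5d8b_al Filter

def tz : Lg.Term (Fin 4) := tb 1 (.var 0) (.var 1)
def tasc (z : Lg.Term (Fin 4)) : Lg.Term (Fin 4) :=
  tb 1 (tb 0 z (tb 0 (.var 2) (.var 3))) (tb 0 (tb 0 z (.var 2)) (.var 3))
def tau : Fin 4 → Lg.Term (Fin 4) :=
  ![tz, tb 0 tz tz, tasc tz, tasc (tb 0 (tb 0 tz tz) (tb 0 (tb 0 tz tz) (tb 0 tz tz)))]

theorem ev_tau {X : Type} (P : Lp X) (x y p q : X) (j : Fin 4) :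
    evg P ![x, y, p, q] (tau j) = TT P (P.ldiv x y) p q j := by
  fin_cases j <;> rfl

theorem evg_relabel {X α β : Type} (P : Lp X) (v : β → X) (g : α → β) (t : Lg.Term α) :
    evg P v (t.relabel g) = evg P (v ∘ g) t :=
  @Term.realize_relabel Lg X P.str α β t g v

theorem id_ev {n : ℕ} {t s : Lg.Term (Fin n)} (h : ∀ v, evg LL v t = evg LL v s) :
    ∀ᶠ k in atTop, ∀ w, evg (KS k) w t = evg (KS k) w s := by
  obtain ⟨N1, h1⟩ := ev_bound (t.relabel Fin.val)
  obtain ⟨N2, h2⟩ := ev_bound (s.relabel Fin.val)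
  filter_upwards [eventually_gt_atTop (N1 + N2)] with k hk w
  have h3 := transfer (s := t.relabel Fin.val) (t := s.relabel Fin.val)
    (fun v => (evg_relabel LL v _ t).trans ((h _).trans (evg_relabel LL v _ s).symm))
    (N := N1 + N2) (fun X P v v' h => h1 X P v v' fun i hi => h i (by omega))
    (fun X P v v' h => h2 X P v v' fun i hi => h i (by omega)) hk
    fun i => if hi : i < n then (w ⟨i, hi⟩).1 else 0
  have h4 := (evg_relabel (KK k) _ _ t).symm.trans (h3.trans (evg_relabel (KK k) _ _ s))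
  have e : ((fun i => if hi : i < n then (w ⟨i, hi⟩).1 else 0) ∘ Fin.val) =
      fun i => (w i).1 := funext fun i => by simp
  rw [e] at h4
  exact Subtype.ext ((evg_hom (val_hom k) w t).trans (h4.trans (evg_hom (val_hom k) w s).symm))

theorem not_mem_V (k : ℕ) : ¬ ∀ (n : ℕ) (t s : Lg.Term (Fin n)),
    (∀ v, evg LL v t = evg LL v s) → ∀ w, evg (KS (k + 2)) w t = evg (KS (k + 2)) w s := by
  intro h
  obtain ⟨w, hw⟩ := not_id_S k
  obtain ⟨N1, h1⟩ := ev_bound (tm (UU (k + 1)) (.var 0))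
  obtain ⟨N2, h2⟩ := ev_bound (tm (.var 0) (UU (k + 1)))
  let g : ℕ → Fin (N1 + N2 + 1) := fun i => if h : i < N1 + N2 + 1 then ⟨i, h⟩ else 0
  have h3 := h _ ((tm (UU (k + 1)) (.var 0)).relabel g) ((tm (.var 0) (UU (k + 1))).relabel g)
    (fun v => (evg_relabel LL v g _).trans ((id_L (k + 1) _).trans (evg_relabel LL v g _).symm))
    fun i => w i
  rw [evg_relabel, evg_relabel] at h3
  have e : ∀ i < N1 + N2 + 1, w i = ((fun i : Fin (N1 + N2 + 1) => w i) ∘ g) i := fun i hi => by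
    simp only [g, Function.comp, dif_pos hi]
  exact hw ((h1 _ _ _ _ fun i hi => e i (by omega)).trans
    (h3.trans (h2 _ _ _ _ fun i hi => e i (by omega)).symm))

@[reducible] noncomputable def kstr (k : ℕ) : Lg.Structure (KT k) := (KS k).str

attribute [local instance] kstr

instance kne (k : ℕ) : Nonempty (KT k) := ⟨c0 k⟩

abbrev UP : Type := ((hyperfilter ℕ : Ultrafilter ℕ) : Filter ℕ).Product KT

theorem up_eq {x y : ∀ k, KT k} : (x : UP) = (y : UP) ↔ ∀ᶠ k in hyperfilter ℕ, x k = y k :=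
  Quotient.eq''

theorem up_id (n : ℕ) (t s : Lg.Term (Fin n)) (h : ∀ v, evg LL v t = evg LL v s)
    (w : Fin n → UP) : t.realize w = s.realize w := by
  choose x hx using fun i => Quotient.exists_rep (w i)
  have e : w = fun i => (x i : UP) := funext fun i => (hx i).symm
  rw [e]
  exact (Ultraproduct.term_realize_cast x t).trans (Eq.trans
    (up_eq.2 (((id_ev h).filter_mono Nat.hyperfilter_le_atTop).mono fun k hk => hk _))
    (Ultraproduct.term_realize_cast x s).symm)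

noncomputable def ue : UP := ((fun k => (KS k).e : ∀ k, KT k) : UP)
noncomputable def uc : UP := ((fun k => c0 k : ∀ k, KT k) : UP)

theorem ue_ne : ue ≠ uc := fun h => by
  obtain ⟨k, hk⟩ := (up_eq.1 h).exists
  have : (0 : ZMod 3) = 1 := congrArg (fun x : KT k => x.1.2) hk
  exact absurd this (by decide)

theorem up_si {θ : UP → UP → Prop} (he : Equivalence θ)
    (hθ : ∀ (n : ℕ) (f : Lg.Functions n) (x y : Fin n → UP),
      (∀ i, θ (x i) (y i)) → θ (Structure.funMap f x) (Structure.funMap f y))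
    (h : ∃ x y, θ x y ∧ x ≠ y) : θ ue uc := by
  obtain ⟨x, y, h1, h2⟩ := h
  obtain ⟨x, rfl⟩ := Quotient.exists_rep x
  obtain ⟨y, rfl⟩ := Quotient.exists_rep y
  have h3 : ∀ᶠ k in hyperfilter ℕ, x k ≠ y k :=
    Ultrafilter.eventually_not.2 fun h => h2 (up_eq.2 h)
  obtain ⟨j, hj⟩ := Ultrafilter.eventually_exists_iff.1 (h3.mono fun k hk => si_S hk)
  have h4 : ∀ k, ∃ p q : KT k, (∃ p q, TT (KS k) ((KS k).ldiv (x k) (y k)) p q j = c0 k ∧
      TT (KS k) ((KS k).ldiv (x k) (x k)) p q j = (KS k).e) →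
      TT (KS k) ((KS k).ldiv (x k) (y k)) p q j = c0 k ∧
      TT (KS k) ((KS k).ldiv (x k) (x k)) p q j = (KS k).e := fun k => by
    by_cases hk : ∃ p q, TT (KS k) ((KS k).ldiv (x k) (y k)) p q j = c0 k ∧
      TT (KS k) ((KS k).ldiv (x k) (x k)) p q j = (KS k).e
    · obtain ⟨p, q, hk⟩ := hk
      exact ⟨p, q, fun _ => hk⟩
    · exact ⟨c0 k, c0 k, fun h => absurd h hk⟩
  choose p q hpq using h4
  have e : ∀ (a b : ∀ k, KT k) k, (tau j).realize (fun i => (![a, b, p, q] : Fin 4 → ∀ k, KT k) i k)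
      = TT (KS k) ((KS k).ldiv (a k) (b k)) (p k) (q k) j := fun a b k => by
    rw [← ev_tau]
    congr 1
    funext i
    fin_cases i <;> rfl
  have h5 := cong_term hθ (v := fun i => ((![x, x, p, q] : Fin 4 → ∀ k, KT k) i : UP))
    (v' := fun i => ((![x, y, p, q] : Fin 4 → ∀ k, KT k) i : UP)) (fun i => by
      fin_cases i
      exacts [he.refl _, h1, he.refl _, he.refl _]) (tau j)
  have a1 : _ = ue := (Ultraproduct.term_realize_cast ![x, x, p, q] (tau j)).trans
    (up_eq.2 (hj.mono fun k hk => (e x x k).trans (hpq k hk).2))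
  have a2 : _ = uc := (Ultraproduct.term_realize_cast ![x, y, p, q] (tau j)).trans
    (up_eq.2 (hj.mono fun k hk => (e x y k).trans (hpq k hk).1))
  rw [← a1, ← a2]
  exact h5

theorem not_fa : ¬ ∃ T : Lg.Theory, Set.Finite T ∧ ∀ (B : Type) [Lg.Structure B],
    (Theory.Model B T ↔
      ((∀ (n : ℕ) (t s : Lg.Term (Fin n)), (∀ v, evg LL v t = evg LL v s) →
          ∀ w : Fin n → B, t.realize w = s.realize w) ∧ Nontrivial B ∧
        ∃ μ : B → B → Prop, Equivalence μ ∧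
          (∀ (n : ℕ) (f : Lg.Functions n) (x y : Fin n → B),
            (∀ i, μ (x i) (y i)) → μ (Structure.funMap f x) (Structure.funMap f y)) ∧
          (∃ x y : B, μ x y ∧ x ≠ y) ∧
          ∀ θ : B → B → Prop, Equivalence θ →
            (∀ (n : ℕ) (f : Lg.Functions n) (x y : Fin n → B),
              (∀ i, θ (x i) (y i)) → θ (Structure.funMap f x) (Structure.funMap f y)) →
            (∃ x y : B, θ x y ∧ x ≠ y) → ∀ x y : B, μ x y → θ x y)) := by
  rintro ⟨T, hT, h⟩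
  have h1 : Theory.Model UP T := (h UP).2 ⟨up_id, ⟨ue, uc, ue_ne⟩,
    fun x y => ∀ θ : UP → UP → Prop, Equivalence θ →
      (∀ (n : ℕ) (f : Lg.Functions n) (x y : Fin n → UP),
        (∀ i, θ (x i) (y i)) → θ (Structure.funMap f x) (Structure.funMap f y)) →
      θ ue uc → θ x y,
    ⟨fun x θ he _ _ => he.refl x, fun h θ he h1 h2 => he.symm (h θ he h1 h2),
      fun h h' θ he h1 h2 => he.trans (h θ he h1 h2) (h' θ he h1 h2)⟩,
    fun n f x y h θ he h1 h2 => h1 n f x y fun i => h i θ he h1 h2,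
    ⟨ue, uc, fun _ _ _ h => h, ue_ne⟩,
    fun θ he h1 h2 x y h => h θ he h1 (up_si he h1 h2)⟩
  have h2 : ∀ᶠ k in hyperfilter ℕ, ∀ φ ∈ T, KT k ⊨ φ :=
    (eventually_all_finite hT).2 fun φ hφ =>
      (Ultraproduct.sentence_realize φ).1 (h1.realize_of_mem φ hφ)
  obtain ⟨k, h3, h4⟩ := (h2.and ((eventually_ge_atTop 2).filter_mono
    Nat.hyperfilter_le_atTop)).exists
  obtain ⟨k, rfl⟩ := Nat.exists_eq_add_of_le' h4
  exact not_mem_V k ((h _).1 ⟨fun φ hφ => h3 φ hφ⟩).1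

end Pool.Agent.H.MP_8ea9e7_al
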